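import Pool.Agent.Helper62.HX.Stm
import Pool.Agent.Helper72.BM.EQ

/-!
# The bivector of a general family of hyperelliptic curves is horizontal, any degree `N + 1`
(the analogue of `Pool/Agent/Helper18/BW/Hor.lean`)
-/

set_option autoImplicit false

open Polynomial Matrix Finset

namespace Pool.Agent.Helper13.HX

open Pool.Agent.Helper62.BM Pool.Agent.Helper62.BW Pool.Agent.Helper62.HX

section core

variable {L : Type} [Field L]

/-- The explicit solution of the relation for `G = K(x, ·)`. -/
theorem core1 {N : ℕ} (F Ft p s : L[X]) (d : L) (hF : F.natDegree = N + 1)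
    (hco : IsCoprime F (derivative F)) (hFt : Ft.natDegree ≤ N)
    (hs : s.natDegree ≤ N) (hps : p * F + s * derivative F = C d * Ft) (x : L)
    (hx : F.eval x ≠ 0) (G P S : L[X])
    (hG : (C x - X) ^ 2 * G = 2 * (F - C (F.eval x)) +
      (C x - X) * (C ((derivative F).eval x) + derivative F)) (hS : S.natDegree ≤ N)
    (hPS : P * F + S * derivative F = C d * G * Ft) :
    (C x - X) ^ 2 * S = (C x - X) * C d * Ft +
      (-2 * C (F.eval x) + (C x - X) * C ((derivative F).eval x)) * s -
      (-2 * C (s.eval x) + (C x - X) * C ((p + 2 * derivative s).eval x)) * F ∧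
    (C x - X) ^ 2 * P = 2 * C d * Ft +
      (-2 * C (F.eval x) + (C x - X) * C ((derivative F).eval x)) * p +
      (-2 * C (s.eval x) + (C x - X) * C ((p + 2 * derivative s).eval x)) * derivative F := by
  set a := F.eval x with ha
  set b := (derivative F).eval x with hb
  set c := s.eval x with hc
  set e := (p + 2 * derivative s).eval x with he
  set E1 : L[X] := 2 * C d * Ft + (-2 * C a + (C x - X) * C b) * p +
    (-2 * C c + (C x - X) * C e) * derivative F with hE1
  set E2 : L[X] := (C x - X) * C d * Ft + (-2 * C a + (C x - X) * C b) * s -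
    (-2 * C c + (C x - X) * C e) * F with hE2
  have hF0 : F ≠ 0 := by
    intro h
    rw [h, natDegree_zero] at hF
    omega
  have h1 : ((C x - X) ^ 2 * P - E1) * F + ((C x - X) ^ 2 * S - E2) * derivative F = 0 := by
    rw [hE1, hE2]
    linear_combination (C x - X) ^ 2 * hPS - (-2 * C a + (C x - X) * C b) * hps + C d * Ft * hG
  have h2 : F ∣ (C x - X) ^ 2 * S - E2 := by
    refine hco.dvd_of_dvd_mul_right ?_
    refine ⟨-((C x - X) ^ 2 * P - E1), ?_⟩
    linear_combination h1
  obtain ⟨η, hη⟩ := h2
  have hh : (C x - X : L[X]).natDegree ≤ 1 := by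
    refine (natDegree_sub_le _ _).trans (max_le ?_ natDegree_X_le)
    rw [natDegree_C]
    exact Nat.zero_le _
  have h2C : ∀ t : L, (-2 * C t : L[X]).natDegree ≤ 1 := by
    intro t
    have : (-2 * C t : L[X]) = C (-2 * t) := by
      rw [C_mul, C_neg]
      rfl
    rw [this, natDegree_C]
    exact Nat.zero_le _
  have hlin : ∀ t u : L, (-2 * C t + (C x - X) * C u : L[X]).natDegree ≤ 1 := by
    intro t u
    refine (natDegree_add_le _ _).trans (max_le (h2C t) ?_)
    refine natDegree_mul_le.trans ?_
    rw [natDegree_C]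
    exact hh
  have hdeg : ((C x - X) ^ 2 * S - E2).natDegree ≤ N + 2 := by
    refine (natDegree_sub_le _ _).trans (max_le ?_ ?_)
    · refine natDegree_mul_le.trans ?_
      have := natDegree_pow_le (p := (C x - X : L[X])) (n := 2)
      omega
    · rw [hE2]
      refine (natDegree_sub_le _ _).trans (max_le ?_ ?_)
      · refine (natDegree_add_le _ _).trans (max_le ?_ ?_)
        · refine natDegree_mul_le.trans ?_
          have h3 : ((C x - X) * C d : L[X]).natDegree ≤ 1 := by
            refine natDegree_mul_le.trans ?_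
            rw [natDegree_C]
            exact hh
          omega
        · refine natDegree_mul_le.trans ?_
          have := hlin a b
          omega
      · refine natDegree_mul_le.trans ?_
        have := hlin c e
        omega
  have hη1 : η.natDegree ≤ 1 := by
    by_cases h0 : η = 0
    · rw [h0, natDegree_zero]
      exact Nat.zero_le _
    · rw [hη, natDegree_mul hF0 h0, hF] at hdeg
      omega
  have hv := congrArg (Polynomial.eval x) hη
  have hw := congrArg (fun q => Polynomial.eval x (derivative q)) hη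
  have hpx := congrArg (Polynomial.eval x) hps
  rw [hE2] at hv hw
  simp only [derivative_sub, derivative_add, derivative_mul, derivative_C, derivative_X,
    derivative_pow, derivative_neg, derivative_ofNat, eval_sub, eval_add, eval_mul, eval_C, eval_X,
    eval_pow, eval_neg, eval_ofNat, sub_self, ← ha, ← hb, ← hc, eval_zero, eval_one,
    Nat.cast_ofNat] at hv hw hpx
  have he' : e = p.eval x + 2 * (derivative s).eval x := by
    rw [he, eval_add, eval_mul, eval_ofNat]
  have hη2 : η.eval x = 0 := by
    have h3 : a * η.eval x = 0 := by linear_combination -hv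
    exact (mul_eq_zero.1 h3).resolve_left hx
  have hη3 : (derivative η).eval x = 0 := by
    have h3 : a * (derivative η).eval x = 0 := by
      linear_combination -hw - hpx - b * hη2 - a * he'
    exact (mul_eq_zero.1 h3).resolve_left hx
  have hη0 : η = 0 := by
    rw [eq_X_add_C_of_natDegree_le_one hη1] at hη2 hη3 ⊢
    simp only [derivative_add, derivative_mul, derivative_C, derivative_X, eval_add, eval_mul,
      eval_C, eval_X, zero_mul, zero_add, mul_one, add_zero] at hη2 hη3
    rw [hη3, zero_mul, zero_add] at hη2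
    rw [hη3, hη2]
    simp
  rw [hη0, mul_zero, sub_eq_zero] at hη
  refine ⟨hη, ?_⟩
  rw [hη, sub_self, zero_mul, add_zero] at h1
  exact sub_eq_zero.1 ((mul_eq_zero.1 h1).resolve_right hF0)

/-- The value of `T_z K`. -/
theorem core2 {N : ℕ} (F Ft p s : L[X]) (d : L) (hF : F.natDegree = N + 1)
    (hco : IsCoprime F (derivative F)) (hFt : Ft.natDegree ≤ N)
    (hs : s.natDegree ≤ N) (hps : p * F + s * derivative F = C d * Ft) (x : L)
    (hx : F.eval x ≠ 0) (G P S : L[X])
    (hG : (C x - X) ^ 2 * G = 2 * (F - C (F.eval x)) +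
      (C x - X) * (C ((derivative F).eval x) + derivative F)) (hS : S.natDegree ≤ N)
    (hPS : P * F + S * derivative F = C d * G * Ft) (z : L) :
    (x - z) ^ 3 * (P + 2 * derivative S).eval z =
      4 * (x - z) * d * Ft.eval z + 2 * (x - z) ^ 2 * d * (derivative Ft).eval z +
      (-2 * F.eval x + (x - z) * (derivative F).eval x) *
        ((x - z) * (p + 2 * derivative s).eval z + 4 * s.eval z) -
      2 * (x - z) * (derivative F).eval x * s.eval z +
      2 * (x - z) * s.eval x * (derivative F).eval z -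
      (x - z) ^ 2 * (p + 2 * derivative s).eval x * (derivative F).eval z +
      8 * s.eval x * F.eval z - 2 * (x - z) * (p + 2 * derivative s).eval x * F.eval z := by
  obtain ⟨h1, h2⟩ := core1 F Ft p s d hF hco hFt hs hps x hx G P S hG hS hPS
  have e1 := congrArg (Polynomial.eval z) h1
  have e2 := congrArg (fun q => Polynomial.eval z (derivative q)) h1
  have e3 := congrArg (Polynomial.eval z) h2
  generalize (p + 2 * derivative s).eval x = e at *
  simp only [derivative_sub, derivative_add, derivative_mul, derivative_C, derivative_X,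
    derivative_pow, derivative_neg, derivative_ofNat, eval_sub, eval_add, eval_mul, eval_C, eval_X,
    eval_pow, eval_neg, eval_ofNat, eval_zero, eval_one, Nat.cast_ofNat] at e1 e2 e3 ⊢
  linear_combination 4 * e1 + 2 * (x - z) * e2 + (x - z) * e3

/-- A vector is zero if its polynomial vanishes at infinitely many points. -/
theorem zero_of_inf {n : ℕ} (c : Fin n → L) (S : Set L) (hS : S.Infinite)
    (h : ∀ x ∈ S, ∑ l, c l * x ^ (l : ℕ) = 0) : ∀ l, c l = 0 := by
  have h1 : (∑ l : Fin n, C (c l) * X ^ (l : ℕ) : L[X]) = 0 := by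
    apply Polynomial.eq_zero_of_infinite_isRoot
    refine hS.mono fun x hx => ?_
    show IsRoot _ x
    rw [IsRoot.def, eval_finsetSum, ← h x hx]
    exact Finset.sum_congr rfl fun l _ => by rw [eval_mul, eval_C, eval_pow, eval_X]
  intro l
  have h2 := congrArg (fun q => coeff q (l : ℕ)) h1
  simp only [finsetSum_coeff, coeff_C_mul, coeff_X_pow, coeff_zero] at h2
  rw [Finset.sum_eq_single l] at h2
  · simpa using h2
  · intro m _ hm
    rw [if_neg, mul_zero]
    intro h3
    exact hm (Fin.ext h3.symm)
  · intro h3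
    exact absurd (mem_univ l) h3

/-- A polynomial of degree `< n` as a sum over `Fin n`. -/
theorem eval_fin {n : ℕ} (q : L[X]) (hq : q.natDegree < n) (z : L) :
    q.eval z = ∑ b : Fin n, q.coeff b * z ^ (b : ℕ) := by
  rw [Polynomial.eval_eq_sum_range' hq, Finset.sum_range]

/-- The kernel. -/
noncomputable def KK (n : ℕ) (F : L[X]) (x z : L) : L :=
  ∑ l : Fin n, ∑ m : Fin n,
    (((l : ℕ) : L) - ((m : ℕ) : L)) * F.coeff ((l : ℕ) + m + 2) * (x ^ (l : ℕ) * z ^ (m : ℕ))

/-- The identity over a field. -/
theorem core3 [Infinite L] {N : ℕ} (hN1 : 1 ≤ N) (F Ft : L[X]) (d : L)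
    (hF : F.natDegree = N + 1) (hco : IsCoprime F (derivative F)) (hFt : Ft.natDegree ≤ N)
    (P S : Fin N → L[X])
    (hS : ∀ l, (S l).natDegree ≤ N)
    (hPS : ∀ l, P l * F + S l * derivative F = C d * X ^ (l : ℕ) * Ft) (x z : L)
    (hx : F.eval x ≠ 0) (hz : F.eval z ≠ 0) (hxz : x ≠ z) :
    2 * d * KK N Ft x z +
      ∑ m : Fin N, (∑ l : Fin N, (((l : ℕ) : L) - ((m : ℕ) : L)) *
        F.coeff ((l : ℕ) + m + 2) * z ^ (l : ℕ)) * (P m + 2 * derivative (S m)).eval x -
      ∑ m : Fin N, (∑ l : Fin N, (((l : ℕ) : L) - ((m : ℕ) : L)) *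
        F.coeff ((l : ℕ) + m + 2) * x ^ (l : ℕ)) * (P m + 2 * derivative (S m)).eval z = 0 := by
  have hg0 : 0 < N := by omega
  set p := P ⟨0, hg0⟩ with hp
  set s := S ⟨0, hg0⟩ with hs
  have hps : p * F + s * derivative F = C d * Ft := by
    have := hPS ⟨0, hg0⟩
    simpa using this
  let k : L → Fin N → L := fun x m => ∑ l : Fin N, (((l : ℕ) : L) - ((m : ℕ) : L)) *
    F.coeff ((l : ℕ) + m + 2) * x ^ (l : ℕ)
  have key : ∀ x z : L, F.eval x ≠ 0 →
      (x - z) ^ 3 * ∑ m, k x m * (P m + 2 * derivative (S m)).eval z =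
      4 * (x - z) * d * Ft.eval z + 2 * (x - z) ^ 2 * d * (derivative Ft).eval z +
      (-2 * F.eval x + (x - z) * (derivative F).eval x) *
        ((x - z) * (p + 2 * derivative s).eval z + 4 * s.eval z) -
      2 * (x - z) * (derivative F).eval x * s.eval z +
      2 * (x - z) * s.eval x * (derivative F).eval z -
      (x - z) ^ 2 * (p + 2 * derivative s).eval x * (derivative F).eval z +
      8 * s.eval x * F.eval z - 2 * (x - z) * (p + 2 * derivative s).eval x * F.eval z := by
    intro x z hx
    have hGz : ∀ z, (∑ m, C (k x m) * X ^ (m : ℕ) : L[X]).eval z = KK N F x z := by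
      intro z
      rw [eval_finsetSum, KK, Finset.sum_comm]
      refine Finset.sum_congr rfl fun m _ => ?_
      rw [eval_mul, eval_C, eval_pow, eval_X, Finset.sum_mul]
      refine Finset.sum_congr rfl fun l _ => ?_
      ring
    have h := core2 F Ft p s d hF hco hFt (hS _) hps x hx (∑ m, C (k x m) * X ^ (m : ℕ))
      (∑ m, C (k x m) * P m) (∑ m, C (k x m) * S m) (by
        refine Polynomial.funext fun z => ?_
        rw [eval_mul, hGz]
        have := Pool.Agent.Helper72.BM.two_var N F hF.le x z
        simp only [eval_add, eval_mul, eval_sub, eval_C, eval_X, eval_pow, eval_ofNat]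
        rw [KK]
        linear_combination this) (by
        refine natDegree_sum_le_of_forall_le _ _ fun m _ => ?_
        exact (natDegree_C_mul_le _ _).trans (hS m)) (by
        rw [Finset.sum_mul, Finset.sum_mul, ← Finset.sum_add_distrib, Finset.mul_sum,
          Finset.sum_mul]
        refine Finset.sum_congr rfl fun m _ => ?_
        linear_combination C (k x m) * hPS m) z
    rw [← h]
    congr 1
    rw [derivative_sum, Finset.mul_sum, ← Finset.sum_add_distrib, eval_finsetSum]
    refine Finset.sum_congr rfl fun m _ => ?_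
    rw [derivative_mul, derivative_C, zero_mul, zero_add]
    simp only [eval_add, eval_mul, eval_C, eval_ofNat]
    ring
  have e1 := key x z hx
  have e2 := key z x hz
  have e3 := Pool.Agent.Helper72.BM.two_var N Ft (by omega) x z
  have hne : (x - z) ^ 3 ≠ 0 := pow_ne_zero _ (sub_ne_zero.2 hxz)
  refine (mul_eq_zero.1 (?_ : (x - z) ^ 3 * _ = 0)).resolve_left hne
  have e4 : KK N Ft x z = ∑ l : Fin N, ∑ m : Fin N,
    (((l : ℕ) : L) - ((m : ℕ) : L)) * Ft.coeff ((l : ℕ) + m + 2) *
      (x ^ (l : ℕ) * z ^ (m : ℕ)) := rfl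
  rw [← e4] at e3
  show (x - z) ^ 3 * (2 * d * KK N Ft x z +
    ∑ m, k z m * (P m + 2 * derivative (S m)).eval x -
    ∑ m, k x m * (P m + 2 * derivative (S m)).eval z) = 0
  linear_combination 2 * (x - z) * d * e3 - e2 - e1

end core

/-- reversal of a triple sum -/
theorem sum_rev {L ι : Type} [AddCommMonoid L] [Fintype ι] (f : ι → ι → ι → L) :
    ∑ m, ∑ b, ∑ l, f m b l = ∑ l, ∑ b, ∑ m, f m b l := by
  rw [Finset.sum_comm]
  rw [Finset.sum_congr rfl fun b _ => Finset.sum_comm (s := univ) (t := univ)
    (f := fun m l => f m b l)]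
  rw [Finset.sum_comm]

/-- rotation of a triple sum -/
theorem sum_rot {L ι : Type} [AddCommMonoid L] [Fintype ι] (f : ι → ι → ι → L) :
    ∑ m, ∑ l, ∑ b, f m l b = ∑ l, ∑ b, ∑ m, f m l b := by
  rw [Finset.sum_comm]
  exact Finset.sum_congr rfl fun l _ => Finset.sum_comm

theorem h_HorN : H_HorN := by
  classical
  intro A _ _ h2 N hN1 F hmon hdeg hsep W P S hRel M hM
  let L := FractionRing A[X]
  let φ : A[X] →+* L := algebraMap A[X] L
  have hφ : Function.Injective φ := IsFractionRing.injective A[X] L
  have : Infinite L := Infinite.of_injective φ hφ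
  have h2X : (2 : A[X]) ≠ 0 := by
    intro h
    apply h2
    have h3 : (C (2 : A) : A[X]) = 0 := by rw [map_ofNat]; exact h
    exact C_eq_zero.1 h3
  have h2L : (2 : L) ≠ 0 := by
    have h3 : φ 2 ≠ 0 := fun h => h2X (hφ (by rw [h, map_zero]))
    rwa [map_ofNat] at h3
  set Fh : L[X] := F.map φ with hFh
  set Ft : L[X] := (dt F).map φ with hFt
  have hF : Fh.natDegree = N + 1 := by
    rw [hFh, natDegree_map_eq_of_injective hφ, hdeg]
  have hco : IsCoprime Fh (derivative Fh) := hsep
  have hFtd : Ft.natDegree ≤ N := by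
    rw [natDegree_le_iff_coeff_eq_zero]
    intro i hi
    rw [hFt, coeff_map, coeff_dt]
    rcases eq_or_lt_of_le (Nat.succ_le_of_lt hi) with h | h
    · have h3 : F.coeff i = 1 := by
        rw [← h, Nat.succ_eq_add_one, ← hdeg]
        exact hmon.coeff_natDegree
      rw [h3, derivative_one, map_zero]
    · rw [coeff_eq_zero_of_natDegree_lt (by omega), derivative_zero, map_zero]
  set d : L := φ W / 2 with hd
  have h2d : 2 * d = φ W := by
    rw [hd, mul_div_assoc', mul_div_cancel_left₀ _ h2L]
  have hRel' : ∀ l, (P l).map φ * Fh + (S l).map φ * derivative Fh = C d * X ^ (l : ℕ) * Ft := by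
    intro l
    have h3 := congrArg (Polynomial.map φ) (hRel l).2.2
    simp only [Polynomial.map_mul, Polynomial.map_add, Polynomial.map_pow, Polynomial.map_X,
      Polynomial.map_C, Polynomial.map_ofNat, ← hFh, ← hFt] at h3
    rw [← derivative_map, ← hFh, ← h2d, C_mul] at h3
    have h4 : (2 : L[X]) ≠ 0 := by
      intro h
      apply h2L
      have h5 : (C (2 : L) : L[X]) = 0 := by rw [map_ofNat]; exact h
      exact C_eq_zero.1 h5
    have h5 : (C (2 : L) : L[X]) = 2 := map_ofNat C 2
    rw [h5] at h3
    refine mul_left_cancel₀ h4 ?_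
    linear_combination h3
  have hSd : ∀ l, ((S l).map φ).natDegree ≤ N := fun l =>
    (natDegree_map_le).trans (hRel l).2.1
  have hPd : ∀ l, ((P l).map φ + 2 * derivative ((S l).map φ)).natDegree < N := by
    intro l
    refine lt_of_le_of_lt (natDegree_add_le _ _) (max_lt ?_ ?_)
    · exact lt_of_le_of_lt natDegree_map_le (hRel l).1
    · refine lt_of_le_of_lt (natDegree_mul_le.trans (add_le_add (natDegree_ofNat 2).le
        (natDegree_derivative_le _))) ?_
      have := hSd l
      omega
  set NN : Matrix (Fin N) (Fin N) A[X] :=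
    W • (Q2F N F).map (fun q => derivative q) + M * Q2F N F +
      Q2F N F * Mᵀ with hNN
  let q : Fin N → Fin N → L := fun l m =>
    (((l : ℕ) : L) - ((m : ℕ) : L)) * Fh.coeff ((l : ℕ) + m + 2)
  let r : Fin N → Fin N → L := fun m b =>
    ((P m).map φ + 2 * derivative ((S m).map φ)).coeff b
  have hq : ∀ l m, φ (Q2F N F l m) = q l m := by
    intro l m
    simp only [Q2F, Matrix.of_apply, map_mul, map_sub, map_natCast, q, hFh, coeff_map]
  have hqa : ∀ l m, q l m = -q m l := by
    intro l m
    simp only [q]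
    rw [show (m : ℕ) + l + 2 = l + m + 2 by omega]
    ring
  have hr : ∀ b m, φ (M b m) = -r m b := by
    intro b m
    rw [hM, map_neg]
    simp only [r]
    rw [← coeff_map]
    congr 2
    rw [Polynomial.map_add, Polynomial.map_mul, Polynomial.map_ofNat, derivative_map]
  have hqd : ∀ l m, φ (derivative (Q2F N F l m)) =
      (((l : ℕ) : L) - ((m : ℕ) : L)) * Ft.coeff ((l : ℕ) + m + 2) := by
    intro l m
    rw [hFt, coeff_map, coeff_dt, Q2F, Matrix.of_apply]
    rw [derivative_mul, derivative_sub, derivative_natCast, derivative_natCast, sub_zero, zero_mul,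
      zero_add, map_mul, map_sub, map_natCast, map_natCast]
  have hNNlb : ∀ l b, φ (NN l b) = φ W * ((((l : ℕ) : L) - ((b : ℕ) : L)) *
      Ft.coeff ((l : ℕ) + b + 2)) + ∑ m, r m l * q b m - ∑ m, q l m * r m b := by
    intro l b
    have s1 : ∑ m, φ (M l m * Q2F N F m b) = ∑ m, r m l * q b m := by
      refine Finset.sum_congr rfl fun m _ => ?_
      rw [map_mul, hq, hr, hqa m b]
      ring
    have s2 : ∑ m, φ (Q2F N F l m * Mᵀ m b) = -∑ m, q l m * r m b := by
      rw [← Finset.sum_neg_distrib]
      refine Finset.sum_congr rfl fun m _ => ?_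
      rw [map_mul, Matrix.transpose_apply, hq, hr]
      ring
    rw [hNN, Matrix.add_apply, Matrix.add_apply, Matrix.smul_apply, Matrix.map_apply,
      Matrix.mul_apply, Matrix.mul_apply, smul_eq_mul, map_add, map_add, map_mul, hqd, map_sum,
      map_sum, s1, s2]
    ring
  have hzero : ∀ x z : L, Fh.eval x ≠ 0 → Fh.eval z ≠ 0 → x ≠ z →
      ∑ l : Fin N, (∑ b : Fin N, φ (NN l b) * z ^ (b : ℕ)) * x ^ (l : ℕ) = 0 := by
    intro x z hx hz hxz
    have h3 := core3 hN1 Fh Ft d hF hco hFtd (fun l => (P l).map φ) (fun l => (S l).map φ) hSd hRel'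
      x z hx hz hxz
    rw [← h3]
    have e1 : ∑ m : Fin N, (∑ l : Fin N, (((l : ℕ) : L) - ((m : ℕ) : L)) *
        Fh.coeff ((l : ℕ) + m + 2) * z ^ (l : ℕ)) *
        ((P m).map φ + 2 * derivative ((S m).map φ)).eval x =
        ∑ l : Fin N, ∑ b : Fin N, ∑ m : Fin N,
          (q b m * z ^ (b : ℕ)) * (r m l * x ^ (l : ℕ)) := by
      rw [← sum_rev]
      refine Finset.sum_congr rfl fun m _ => ?_
      rw [eval_fin _ (hPd m), Finset.sum_mul_sum]
    have e2 : ∑ m : Fin N, (∑ l : Fin N, (((l : ℕ) : L) - ((m : ℕ) : L)) *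
        Fh.coeff ((l : ℕ) + m + 2) * x ^ (l : ℕ)) *
        ((P m).map φ + 2 * derivative ((S m).map φ)).eval z =
        ∑ l : Fin N, ∑ b : Fin N, ∑ m : Fin N,
          (q l m * x ^ (l : ℕ)) * (r m b * z ^ (b : ℕ)) := by
      rw [← sum_rot]
      refine Finset.sum_congr rfl fun m _ => ?_
      rw [eval_fin _ (hPd m), Finset.sum_mul_sum]
    rw [e1, e2, h2d, KK, Finset.mul_sum, ← Finset.sum_add_distrib, ← Finset.sum_sub_distrib]
    refine Finset.sum_congr rfl fun l _ => ?_
    rw [Finset.mul_sum, ← Finset.sum_add_distrib, ← Finset.sum_sub_distrib, Finset.sum_mul]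
    refine Finset.sum_congr rfl fun b _ => ?_
    rw [hNNlb, sub_mul, add_mul, sub_mul, add_mul, Finset.sum_mul, Finset.sum_mul, Finset.sum_mul,
      Finset.sum_mul]
    congr 1
    · congr 1
      · ring
      · exact Finset.sum_congr rfl fun m _ => by ring
    · exact Finset.sum_congr rfl fun m _ => by ring
  have hF0 : Fh ≠ 0 := by
    intro h
    rw [h, natDegree_zero] at hF
    omega
  have hgood : ({x : L | Fh.eval x ≠ 0} : Set L).Infinite := by
    have h3 : ({x : L | Fh.eval x = 0} : Set L).Finite := by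
      refine Set.Finite.subset (Fh.roots.toFinset.finite_toSet) fun x hx => ?_
      rw [Finset.mem_coe, Multiset.mem_toFinset, mem_roots hF0]
      exact hx
    exact h3.infinite_compl
  have hNN0 : ∀ l b, φ (NN l b) = 0 := by
    intro l
    refine zero_of_inf (fun b => φ (NN l b)) _ hgood fun z hz => ?_
    have h3 : ({x : L | Fh.eval x ≠ 0} \ {z}).Infinite := hgood.sdiff (Set.finite_singleton z)
    exact zero_of_inf (fun l => ∑ b : Fin N, φ (NN l b) * z ^ (b : ℕ)) _ h3
      (fun x hx => hzero x z hx.1 hz hx.2) l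
  ext1 l b
  exact hφ (by rw [hNN0 l b, Matrix.zero_apply, map_zero])

end Pool.Agent.Helper13.HX
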