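import Pool.Agent.Helper62.HX.Stm
import Pool.Agent.Helper18.BM.HW

/-!
# The space `V` is stable under the Gauss-Manin connection (package H4)
-/

set_option autoImplicit false

open Polynomial Matrix Finset

namespace Pool.Agent.Helper13.HX

open Pool.Agent.Helper62.BM Pool.Agent.Helper62.BW Pool.Agent.Helper62.HX

/-- `V = {q G + r}`. -/
theorem mem_V_iff {R : Type} [CommRing R] (g : ℕ) (hg : 1 ≤ g) (G u : R[X]) :
    (∃ c : Fin (2 * g) → R, u = ∑ m, Polynomial.C (c m) * bE g G m) ↔
      ∃ q r : R[X], q.natDegree < g ∧ r.natDegree < g ∧ u = q * G + r := by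
  have key : ∀ c : ℕ → R, ∑ m : Fin (2 * g), Polynomial.C (c m) * bE g G m =
      (∑ m ∈ range g, Polynomial.C (c (g + m)) * X ^ m) * G +
        ∑ m ∈ range g, Polynomial.C (c m) * X ^ m := by
    intro c
    have h1 : ∑ m : Fin (2 * g), Polynomial.C (c m) * bE g G m =
        ∑ m ∈ range (g + g), Polynomial.C (c m) * (if m < g then X ^ m else X ^ (m - g) * G) := by
      rw [← two_mul]
      rw [← Fin.sum_univ_eq_sum_range
        (fun m => Polynomial.C (c m) * (if m < g then X ^ m else X ^ (m - g) * G)) (2 * g)]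
      rfl
    rw [h1, Finset.sum_range_add, add_comm, Finset.sum_mul]
    congr 1
    · refine Finset.sum_congr rfl fun m _ => ?_
      rw [if_neg (by omega), Nat.add_sub_cancel_left]
      ring
    · refine Finset.sum_congr rfl fun m hm => ?_
      rw [if_pos (Finset.mem_range.1 hm)]
  have hdeg : ∀ c : ℕ → R, (∑ m ∈ range g, Polynomial.C (c m) * X ^ m : R[X]).natDegree < g := by
    intro c
    refine lt_of_le_of_lt (natDegree_sum_le_of_forall_le (n := g - 1) _ _ fun m hm => ?_)
      (by omega)
    refine (natDegree_C_mul_X_pow_le _ _).trans ?_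
    have := Finset.mem_range.1 hm
    omega
  constructor
  · rintro ⟨c, rfl⟩
    obtain ⟨c', hc'⟩ : ∃ c' : ℕ → R, ∀ m : Fin (2 * g), c' m = c m :=
      ⟨fun n => if h : n < 2 * g then c ⟨n, h⟩ else 0, fun m => by
        simp only [Fin.is_lt, dite_true, Fin.eta]⟩
    have h := key c'
    refine ⟨∑ m ∈ range g, Polynomial.C (c' (g + m)) * X ^ m,
      ∑ m ∈ range g, Polynomial.C (c' m) * X ^ m, hdeg fun m => c' (g + m), hdeg c', ?_⟩
    rw [← h]
    exact Finset.sum_congr rfl fun m _ => by rw [hc']
  · rintro ⟨q, r, hq, hr, rfl⟩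
    refine ⟨fun m => if (m : ℕ) < g then r.coeff m else q.coeff (m - g), ?_⟩
    have h := key (fun n => if n < g then r.coeff n else q.coeff (n - g))
    rw [h]
    congr 1
    · congr 1
      conv_lhs => rw [as_sum_range_C_mul_X_pow' q hq]
      refine Finset.sum_congr rfl fun m _ => ?_
      rw [if_neg (by omega), Nat.add_sub_cancel_left]
    · conv_lhs => rw [as_sum_range_C_mul_X_pow' r hr]
      refine Finset.sum_congr rfl fun m hm => ?_
      rw [if_pos (Finset.mem_range.1 hm)]

section

variable {A : Type} [CommRing A]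

theorem dt_natDegree_le (F : A[X][X]) : (dt F).natDegree ≤ F.natDegree := by
  rw [natDegree_le_iff_coeff_eq_zero]
  intro i hi
  rw [coeff_dt, coeff_eq_zero_of_natDegree_lt hi, derivative_zero]

theorem dt_natDegree_monic (g : ℕ) (G : A[X][X]) (hG : G.Monic) (hd : G.natDegree = g + 1) :
    (dt G).natDegree ≤ g := by
  rw [natDegree_le_iff_coeff_eq_zero]
  intro i hi
  rw [coeff_dt]
  rcases eq_or_lt_of_le (Nat.succ_le_of_lt hi) with h | h
  · have h3 : G.coeff i = 1 := by
      rw [← h, Nat.succ_eq_add_one, ← hd]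
      exact hG.coeff_natDegree
    rw [h3, derivative_one]
  · rw [coeff_eq_zero_of_natDegree_lt (by omega), derivative_zero]

theorem dt_mul' (x y : A[X][X]) : dt (x * y) = dt x * y + x * dt y :=
  Pool.Agent.Helper18.BM.dc_mul x y

theorem dt_add' (x y : A[X][X]) : dt (x + y) = dt x + dt y := by
  ext1 k
  rw [coeff_dt, coeff_add, coeff_add, derivative_add, coeff_dt, coeff_dt]

end

theorem h_Stab : H_Stab := by
  intro A _ _ h2 g hg G H hG hGd hHd W u P S hu hP hS hrel
  obtain ⟨q, r, hq, hr, rfl⟩ := (mem_V_iff g hg G u).1 hu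
  rw [mem_V_iff g hg G]
  have h2X : (2 : A[X]) ≠ 0 := by
    intro h
    apply h2
    have h3 : (C (2 : A) : A[X]) = 0 := by rw [map_ofNat]; exact h
    exact C_eq_zero.1 h3
  have h2XX : (2 : A[X][X]) ≠ 0 := by
    intro h
    apply h2X
    have h3 : (C (2 : A[X]) : A[X][X]) = 0 := by rw [map_ofNat]; exact h
    exact C_eq_zero.1 h3
  have hG0 : G ≠ 0 := hG.ne_zero
  have hG1 : G ≠ 1 := by
    intro h
    rw [h, natDegree_one] at hGd
    omega
  -- degrees
  have d2 : ∀ (x : A[X][X]) (n : ℕ), x.natDegree ≤ n → (2 * x).natDegree ≤ n := by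
    intro x n hx
    refine natDegree_mul_le.trans ?_
    rw [natDegree_ofNat, zero_add]
    exact hx
  have dW : ∀ (x : A[X][X]) (n : ℕ), x.natDegree ≤ n → (Polynomial.C W * x).natDegree ≤ n :=
    fun x n hx => (natDegree_C_mul_le _ _).trans hx
  have dGt := dt_natDegree_monic g G hG hGd
  have dHt : (dt H).natDegree ≤ g := (dt_natDegree_le H).trans hHd
  have dGx : (derivative G).natDegree ≤ g := by
    have := natDegree_derivative_le G
    omega
  have dHx : (derivative H).natDegree ≤ g - 1 := by
    have := natDegree_derivative_le H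
    omega
  -- the first identity
  have hF : derivative (G ^ 2 + H) = 2 * (G * derivative G) + derivative H := by
    rw [derivative_add, sq, derivative_mul]
    ring
  have hFt : dt (G ^ 2 + H) = 2 * (G * dt G) + dt H := by
    rw [dt_add', sq, dt_mul']
    ring
  rw [hF, hFt] at hrel
  obtain ⟨N1, hN1⟩ : ∃ N1, N1 = P * G + 2 * (S * derivative G) - Polynomial.C W * (q * (G * dt G)) :=
    ⟨_, rfl⟩
  have e1 : 2 * G * N1 = Polynomial.C W * (q * (G * dt H)) + Polynomial.C W * (2 * (r * (G * dt G))) +
      Polynomial.C W * (r * dt H) - 2 * (P * H) - 2 * (S * derivative H) := by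
    rw [hN1]
    linear_combination hrel
  have dE : (2 * G * N1).natDegree ≤ 3 * g := by
    rw [e1]
    refine (natDegree_sub_le_of_le (natDegree_sub_le_of_le (natDegree_add_le_of_degree_le
      (natDegree_add_le_of_degree_le (dW _ (3 * g) ?_) (dW _ _ (d2 _ _ ?_))) (dW _ _ ?_))
      (d2 _ (3 * g) ?_)) (d2 _ (3 * g) ?_)).trans ?_
    · refine natDegree_mul_le.trans (le_trans (add_le_add_right natDegree_mul_le _) ?_)
      omega
    · refine natDegree_mul_le.trans (le_trans (add_le_add_right natDegree_mul_le _) ?_)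
      omega
    · refine natDegree_mul_le.trans ?_
      omega
    · refine natDegree_mul_le.trans ?_
      omega
    · refine natDegree_mul_le.trans ?_
      omega
    · simp
  have dN1 : N1.natDegree ≤ 2 * g - 1 := by
    by_cases h0 : N1 = 0
    · rw [h0, natDegree_zero]
      exact Nat.zero_le _
    · rw [mul_assoc, natDegree_mul h2XX (mul_ne_zero hG0 h0), natDegree_mul hG0 h0,
        natDegree_ofNat, hGd] at dE
      omega
  -- division of `S`
  obtain ⟨a, ha⟩ : ∃ a, a = S /ₘ G := ⟨_, rfl⟩
  obtain ⟨b, hb⟩ : ∃ b, b = S %ₘ G := ⟨_, rfl⟩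
  have hSab : S = a * G + b := by
    have := modByMonic_add_div S G
    rw [← ha, ← hb] at this
    rw [← this]
    ring
  have da : a.natDegree ≤ g := by
    rw [ha, natDegree_divByMonic S hG]
    omega
  have db : b.natDegree ≤ g := by
    have := natDegree_modByMonic_lt S hG hG1
    rw [← hb] at this
    omega
  have da' : (derivative a).natDegree ≤ g - 1 := by
    have := natDegree_derivative_le a
    omega
  have db' : (derivative b).natDegree ≤ g - 1 := by
    have := natDegree_derivative_le b
    omega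
  have hS' : derivative S = derivative a * G + a * derivative G + derivative b := by
    rw [hSab, derivative_add, derivative_mul]
  obtain ⟨T, hT⟩ : ∃ T, T = P + 2 * derivative S - Polynomial.C W * (q * dt G) -
    2 * (derivative a * G) := ⟨_, rfl⟩
  have e2 : G * T = N1 + 2 * (derivative b * G) - 2 * (b * derivative G) := by
    rw [hT, hN1, hS']
    conv_rhs => rw [hSab]
    ring
  have dGT : (G * T).natDegree ≤ 2 * g := by
    rw [e2]
    refine (natDegree_sub_le_of_le (natDegree_add_le_of_degree_le (n := 2 * g) (by omega)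
      (d2 _ _ ?_)) (d2 _ (2 * g) ?_)).trans ?_
    · refine natDegree_mul_le.trans ?_
      omega
    · refine natDegree_mul_le.trans ?_
      omega
    · simp
  have dT : T.natDegree < g := by
    by_cases h0 : T = 0
    · rw [h0, natDegree_zero]
      omega
    · rw [natDegree_mul hG0 h0, hGd] at dGT
      omega
  refine ⟨Polynomial.C W * dt q - 2 * derivative a, Polynomial.C W * dt r - T, ?_, ?_, ?_⟩
  · refine lt_of_le_of_lt (natDegree_sub_le_of_le (dW _ (g - 1) ?_) (d2 _ (g - 1) da')) ?_
    · have := dt_natDegree_le q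
      omega
    · rw [max_self]
      omega
  · refine lt_of_le_of_lt (natDegree_sub_le_of_le (dW _ (g - 1) ?_) (Nat.le_sub_one_of_lt dT)) ?_
    · have := dt_natDegree_le r
      omega
    · rw [max_self]
      omega
  · rw [hT, dt_add', dt_mul']
    ring

end Pool.Agent.Helper13.HX
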